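import Pool.Agent.H49.IRE.Closed

/-!
# An automorphism from the finiteness in the plane, and conversely
-/

set_option autoImplicit false

namespace Pool.Agent.H49.IRE

open Pool.Agent.H57.KM Pool.Agent.H57.IR Filter

/-- `auto_of_fin` with the finiteness only in the plane -/
theorem auto_of_finW {N : ℕ} {C : Set (V N)} (hC : IsAmp C) (G : Subgroup (GL (Fin N) ℤ))
    (hG : ∀ g ∈ G, ∀ x ∈ C, act g x ∈ C) (F : V N → ℝ) (W : Submodule ℝ (V N))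
    (hfin : ∀ B : ℝ, ∃ S : Finset (Fin N → ℤ), ∀ s : Fin N → ℤ, toR s ∈ C → toR s ∈ W → F (toR s) ≤ B →
      ∃ g ∈ G, ∃ s' ∈ S, toR s = act g (toR s'))
    (e₁ e₂ : V N) (he₁ : e₁ ∈ closure C) (hW₁ : e₁ ∈ W) (hW₂ : e₂ ∈ W) (hh : e₁ + e₂ ∈ C) (c : ℝ) (m : ℕ)
    (hF : ∀ a b : ℝ, F (a • e₁ + b • e₂) = c * (a * b) ^ m)
    (lam : ℝ) (hlam : 1 < lam) (v : ℕ → Fin N → ℤ)
    (hv : ∀ j, toR (v j) = lam ^ j • e₁ + (lam⁻¹) ^ j • e₂) :
    ∃ g ∈ G, ∃ k : ℕ, 0 < k ∧ act g e₁ = lam ^ k • e₁ ∧ act g e₂ = (lam⁻¹) ^ k • e₂ := by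
  have hl0 : 0 < lam := by linarith
  have hvC : ∀ j, toR (v j) ∈ C := by
    intro j
    have h1 : toR (v j) = (lam ^ j - (lam⁻¹) ^ j) • e₁ + (lam⁻¹) ^ j • (e₁ + e₂) := by
      rw [hv]
      module
    rw [h1]
    apply hC.add_mem
    · apply hC.closure_smul _ _ _ he₁
      have h2 : (lam⁻¹) ^ j ≤ 1 := pow_le_one₀ (by positivity) (inv_le_one_of_one_le₀ hlam.le)
      have h3 : 1 ≤ lam ^ j := one_le_pow₀ hlam.le
      linarith
    · exact hC.smul _ (by positivity) _ hh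
  obtain ⟨S, hS⟩ := hfin (c * ((1 + lam) * (1 + lam⁻¹)) ^ m)
  have hz : ∀ j, ∃ g ∈ G, ∃ s' ∈ S, toR (v j + v (j + 1)) = act g (toR s') := by
    intro j
    apply hS
    · rw [toR_add]
      exact hC.add _ (hvC j) _ (hvC (j + 1))
    · rw [toR_add, hv, hv]
      exact W.add_mem (W.add_mem (W.smul_mem _ hW₁) (W.smul_mem _ hW₂))
        (W.add_mem (W.smul_mem _ hW₁) (W.smul_mem _ hW₂))
    · have h1 : toR (v j + v (j + 1)) = (lam ^ j * (1 + lam)) • e₁ + ((lam⁻¹) ^ j * (1 + lam⁻¹)) • e₂ := by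
        rw [toR_add, hv, hv, pow_succ, pow_succ]
        module
      rw [h1, hF]
      apply le_of_eq
      congr 2
      have h2 : lam ^ j * (lam⁻¹) ^ j = 1 := by
        rw [← mul_pow, mul_inv_cancel₀ hl0.ne', one_pow]
      linear_combination ((1 + lam) * (1 + lam⁻¹)) * h2
  choose g hg s' hs' hgs using hz
  let T : Set ((Fin N → ℤ) × (Fin N → ℤ)) :=
    ⋃ s ∈ (S : Set (Fin N → ℤ)), {q | toR q.1 ∈ C ∧ toR q.2 ∈ C ∧ q.1 + q.2 = s}
  have hT : T.Finite := Set.Finite.biUnion S.finite_toSet (fun s _ => dec_finite hC s)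
  have hmem : ∀ j, ((actZ (g j)⁻¹ (v j), actZ (g j)⁻¹ (v (j + 1))) : (Fin N → ℤ) × (Fin N → ℤ)) ∈ T := by
    intro j
    refine Set.mem_biUnion (hs' j) ?_
    refine ⟨?_, ?_, ?_⟩
    · change toR (actZ (g j)⁻¹ (v j)) ∈ C
      rw [toR_actZ]
      exact hG _ (G.inv_mem (hg j)) _ (hvC j)
    · change toR (actZ (g j)⁻¹ (v (j + 1))) ∈ C
      rw [toR_actZ]
      exact hG _ (G.inv_mem (hg j)) _ (hvC (j + 1))
    · change actZ (g j)⁻¹ (v j) + actZ (g j)⁻¹ (v (j + 1)) = s' j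
      have h1 : toR (actZ (g j)⁻¹ (v j) + actZ (g j)⁻¹ (v (j + 1))) = toR (s' j) := by
        rw [toR_add, toR_actZ, toR_actZ, ← act_add, ← toR_add, hgs j, ← act_mul, inv_mul_cancel, act_one]
      exact toR_inj' h1
  obtain ⟨j, l, hjl, hEq⟩ := hT.exists_lt_map_eq_of_forall_mem hmem
  rw [Prod.mk.injEq] at hEq
  obtain ⟨hE1, hE2⟩ := hEq
  have key : ∀ a b : Fin N → ℤ, actZ (g j)⁻¹ a = actZ (g l)⁻¹ b → act (g l * (g j)⁻¹) (toR a) = toR b := by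
    intro a b hab
    rw [act_mul, ← toR_actZ, hab, toR_actZ, ← act_mul, mul_inv_cancel, act_one]
  have k1 := key _ _ hE1
  have k2 := key _ _ hE2
  obtain ⟨k, rfl⟩ := Nat.exists_eq_add_of_lt hjl
  refine ⟨g (j + k + 1) * (g j)⁻¹, G.mul_mem (hg _) (G.inv_mem (hg _)), k + 1, Nat.succ_pos k, ?_, ?_⟩
  · have h1 : (lam ^ j * (lam - lam⁻¹)) • e₁ = toR (v (j + 1)) - lam⁻¹ • toR (v j) := by
      rw [hv, hv, pow_succ, pow_succ]
      module
    have h2 : (lam ^ (j + k + 1) * (lam - lam⁻¹)) • e₁ =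
        toR (v (j + k + 1 + 1)) - lam⁻¹ • toR (v (j + k + 1)) := by
      rw [hv, hv, pow_succ lam (j + k + 1), pow_succ lam⁻¹ (j + k + 1)]
      module
    have h3 := congrArg (act (g (j + k + 1) * (g j)⁻¹)) h1
    rw [act_smul, act_sub, act_smul, k1, k2, ← h2] at h3
    have h4 : lam ^ j * (lam - lam⁻¹) ≠ 0 := by
      have h5 : lam⁻¹ < 1 := inv_lt_one_of_one_lt₀ hlam
      have h6 : 0 < lam - lam⁻¹ := by linarith
      positivity
    have h7 : (lam ^ j * (lam - lam⁻¹)) • act (g (j + k + 1) * (g j)⁻¹) e₁ =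
        (lam ^ j * (lam - lam⁻¹)) • (lam ^ (k + 1) • e₁) := by
      rw [h3, smul_smul]
      congr 1
      ring
    exact smul_right_injective _ h4 h7
  · have h1 : ((lam⁻¹) ^ j * (lam⁻¹ - lam)) • e₂ = toR (v (j + 1)) - lam • toR (v j) := by
      rw [hv, hv, pow_succ, pow_succ]
      module
    have h2 : ((lam⁻¹) ^ (j + k + 1) * (lam⁻¹ - lam)) • e₂ =
        toR (v (j + k + 1 + 1)) - lam • toR (v (j + k + 1)) := by
      rw [hv, hv, pow_succ lam (j + k + 1), pow_succ lam⁻¹ (j + k + 1)]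
      module
    have h3 := congrArg (act (g (j + k + 1) * (g j)⁻¹)) h1
    rw [act_smul, act_sub, act_smul, k1, k2, ← h2] at h3
    have h4 : (lam⁻¹) ^ j * (lam⁻¹ - lam) ≠ 0 := by
      have h5 : lam⁻¹ < 1 := inv_lt_one_of_one_lt₀ hlam
      have h6 : lam⁻¹ - lam < 0 := by linarith
      exact mul_ne_zero (by positivity) h6.ne
    have h7 : ((lam⁻¹) ^ j * (lam⁻¹ - lam)) • act (g (j + k + 1) * (g j)⁻¹) e₂ =
        ((lam⁻¹) ^ j * (lam⁻¹ - lam)) • ((lam⁻¹) ^ (k + 1) • e₂) := by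
      rw [h3, smul_smul]
      congr 1
      ring
    exact smul_right_injective _ h4 h7

variable {N : ℕ} {C : Set (V N)} {G : Subgroup (GL (Fin N) ℤ)} {F : V N → ℝ} {W : Submodule ℝ (V N)}
  {e₁ e₂ : V N} {c : ℝ} {m : ℕ}

/-- the automorphism gives the finiteness with orbits of the stabiliser -/
theorem Ctx'.fin_of_auto (X : Ctx' C G F W e₁ e₂ c m) {g₀ : GL (Fin N) ℤ} (hg₀ : g₀ ∈ G) {μ : ℝ} (hμ : 1 < μ)
    (h1 : act g₀ e₁ = μ • e₁) (h2 : act g₀ e₂ = μ⁻¹ • e₂) (B : ℝ) :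
    ∃ S : Finset (Fin N → ℤ), ∀ s : Fin N → ℤ, toR s ∈ C → toR s ∈ W → F (toR s) ≤ B →
      ∃ g ∈ stab G W, ∃ s' ∈ S, toR s = act g (toR s') := by
  have hμ0 : 0 < μ := by linarith
  have hc := X.cpos
  have Y : Ctx C G F W e₁ e₂ c m := X.ctx (e2_closure X.hC X.hG hg₀ hμ h1 h2 X.sum)
  have hst : g₀ ∈ stab G W := Y.diag_stab hg₀ hμ0.ne' h1 h2
  obtain ⟨M, hM⟩ : ∃ M : ℝ, M = max 1 (B / c) := ⟨_, rfl⟩
  have hM1 : 1 ≤ M := by
    rw [hM]
    exact le_max_left _ _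
  refine ⟨(dyn_finite_ball (n := N) (μ * ‖e₁‖ + M * ‖e₂‖)).toFinset, ?_⟩
  intro s hsC hsW hsB
  obtain ⟨a, b, hab⟩ := X.span _ hsW
  rw [hab] at hsC hsB
  obtain ⟨ha, hb⟩ := cone_pos X.hC F X.pos X.sum X.m0 X.form hsC
  rw [X.form] at hsB
  have habM : a * b ≤ M := by
    by_cases h : a * b ≤ 1
    · exact h.trans hM1
    · push Not at h
      have h3 : a * b ≤ (a * b) ^ m := le_self_pow₀ h.le X.m0.ne'
      have h4 : (a * b) ^ m ≤ B / c := by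
        rw [le_div_iff₀ hc]
        linarith
      have h5 : B / c ≤ M := by
        rw [hM]
        exact le_max_right _ _
      linarith
  obtain ⟨j, hj1, hj2⟩ := exists_mem_Ico_zpow ha hμ
  have hz : 0 < μ ^ j := by positivity
  have hzi : μ ^ j * (μ ^ j)⁻¹ = 1 := mul_inv_cancel₀ hz.ne'
  have hact := act_comb hμ0.ne' h1 h2 a b (-j)
  rw [← hab, zpow_neg μ j, inv_inv] at hact
  refine ⟨g₀ ^ j, stab_zpow hst j, actZ (g₀ ^ (-j)) s, ?_, ?_⟩
  · rw [Set.Finite.mem_toFinset]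
    change ‖toR (actZ (g₀ ^ (-j)) s)‖ ≤ _
    rw [toR_actZ, hact]
    refine (norm_add_le _ _).trans ?_
    have h3 : a * (μ ^ j)⁻¹ ≤ μ := by
      rw [← div_eq_mul_inv, div_le_iff₀ hz]
      rw [zpow_add_one₀ hμ0.ne'] at hj2
      linarith
    have h4 : b * μ ^ j ≤ M := by
      have h5 : b * μ ^ j ≤ b * a := mul_le_mul_of_nonneg_left hj1 hb.le
      linarith
    rw [norm_smul, norm_smul, Real.norm_eq_abs, Real.norm_eq_abs, abs_of_pos (by positivity),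
      abs_of_pos (by positivity)]
    exact add_le_add (mul_le_mul_of_nonneg_right h3 (norm_nonneg _))
      (mul_le_mul_of_nonneg_right h4 (norm_nonneg _))
  · rw [toR_actZ, ← act_mul, zpow_neg, mul_inv_cancel, act_one]

/-- the automorphism gives infinitely many classes in the orbit -/
theorem Ctx'.inf_of_auto (X : Ctx' C G F W e₁ e₂ c m) {g₀ : GL (Fin N) ℤ} (hg₀ : g₀ ∈ G) {μ : ℝ} (hμ : 1 < μ)
    (h1 : act g₀ e₁ = μ • e₁) (h2 : act g₀ e₂ = μ⁻¹ • e₂) :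
    {x | ∃ g ∈ stab G W, x = act g (e₁ + e₂)}.Infinite := by
  have hμ0 : 0 < μ := by linarith
  have Y : Ctx C G F W e₁ e₂ c m := X.ctx (e2_closure X.hC X.hG hg₀ hμ h1 h2 X.sum)
  have hst : g₀ ∈ stab G W := Y.diag_stab hg₀ hμ0.ne' h1 h2
  refine Set.infinite_of_injective_forall_mem (f := fun j : ℕ => act (g₀ ^ (j : ℤ)) (e₁ + e₂)) ?_
    (fun j => ⟨_, stab_zpow hst _, rfl⟩)
  intro j l hjl
  have h3 := act_comb hμ0.ne' h1 h2 1 1 (j : ℤ)
  have h4 := act_comb hμ0.ne' h1 h2 1 1 (l : ℤ)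
  rw [one_smul, one_smul] at h3 h4
  simp only at hjl
  rw [h3, h4] at hjl
  have h5 := (X.indep hjl).1
  rw [one_mul, one_mul, zpow_natCast, zpow_natCast] at h5
  exact (pow_right_strictMono₀ hμ).injective h5

end Pool.Agent.H49.IRE
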