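import Pool.Agent.H49.IRE.QFin

/-!
# Limits of points of a rational polyhedral cone of nef classes; the stabiliser of the plane
-/

set_option autoImplicit false

namespace Pool.Agent.H49.IRE

open Pool.Agent.H57.KM Pool.Agent.H57.IR Filter

theorem xi_add' {N : ℕ} (η x y : V N) : xi η (x + y) = xi η x + xi η y := by
  unfold xi
  rw [← Finset.sum_add_distrib]
  refine Finset.sum_congr rfl (fun i _ => ?_)
  rw [Pi.add_apply, mul_add]

theorem xi_smul' {N : ℕ} (η : V N) (t : ℝ) (x : V N) : xi η (t • x) = t * xi η x := by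
  unfold xi
  rw [Finset.mul_sum]
  refine Finset.sum_congr rfl (fun i _ => ?_)
  rw [Pi.smul_apply, smul_eq_mul]
  ring

theorem xi_sum' {N : ℕ} (η : V N) {ι : Type*} (A : Finset ι) (f : ι → V N) :
    xi η (∑ i ∈ A, f i) = ∑ i ∈ A, xi η (f i) := by
  classical
  induction A using Finset.induction_on with
  | empty =>
    rw [Finset.sum_empty, Finset.sum_empty]
    have := xi_smul' η 0 0
    rwa [zero_smul, zero_mul] at this
  | insert a A ha ih => rw [Finset.sum_insert ha, Finset.sum_insert ha, xi_add', ih]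

/-- a cone generated by finitely many integral nef classes is closed under limits -/
theorem gen_lim {N : ℕ} {C : Set (V N)} (hC : IsAmp C) (S : Finset (Fin N → ℤ))
    (hS : ∀ s ∈ S, toR s ∈ closure C) (x : ℕ → V N) (y : V N) (hx : Tendsto x atTop (nhds y))
    (hg : ∀ k, gen S (x k)) : gen S y := by
  classical
  obtain ⟨η, c₀, hc₀, hη⟩ := dual_ne hC
  choose c hc hxc using hg
  -- the functional is bounded along the sequence
  have hcont : Continuous (fun z : V N => xi η z) := by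
    unfold xi
    fun_prop
  obtain ⟨M, hM⟩ : ∃ M : ℝ, ∀ k, xi η (x k) ≤ M := by
    have h1 : Tendsto (fun k => xi η (x k)) atTop (nhds (xi η y)) := (hcont.tendsto y).comp hx
    obtain ⟨M, hM⟩ := h1.bddAbove_range
    exact ⟨M, fun k => hM ⟨k, rfl⟩⟩
  let b : S → ℝ := fun s => if toR (s : Fin N → ℤ) = 0 then 0 else M / (c₀ * ‖toR (s : Fin N → ℤ)‖)
  let c' : ℕ → S → ℝ := fun k s => if toR (s : Fin N → ℤ) = 0 then 0 else c k s
  have hxc' : ∀ k, x k = ∑ s : S, c' k s • toR (s : Fin N → ℤ) := by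
    intro k
    rw [hxc k, ← Finset.sum_coe_sort S]
    refine Finset.sum_congr rfl (fun s _ => ?_)
    change _ = (if toR (s : Fin N → ℤ) = 0 then 0 else c k s) • toR (s : Fin N → ℤ)
    by_cases h0 : toR (s : Fin N → ℤ) = 0
    · rw [h0, smul_zero, smul_zero]
    · rw [if_neg h0]
  have hmem : ∀ k, c' k ∈ Set.pi Set.univ (fun s : S => Set.Icc (0 : ℝ) (b s)) := by
    intro k s _
    change (if toR (s : Fin N → ℤ) = 0 then 0 else c k s) ∈
      Set.Icc (0 : ℝ) (if toR (s : Fin N → ℤ) = 0 then 0 else M / (c₀ * ‖toR (s : Fin N → ℤ)‖))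
    by_cases h0 : toR (s : Fin N → ℤ) = 0
    · rw [if_pos h0, if_pos h0]
      exact ⟨le_rfl, le_rfl⟩
    · rw [if_neg h0, if_neg h0]
      refine ⟨hc k s, ?_⟩
      have h1 : 0 < ‖toR (s : Fin N → ℤ)‖ := norm_pos_iff.2 h0
      rw [le_div_iff₀ (by positivity)]
      calc c k s * (c₀ * ‖toR (s : Fin N → ℤ)‖) ≤ c k s * xi η (toR (s : Fin N → ℤ)) :=
            mul_le_mul_of_nonneg_left (hη _ (hS _ s.2)) (hc k s)
        _ ≤ ∑ t ∈ S, c k t * xi η (toR t) := by
            refine Finset.single_le_sum (f := fun t => c k t * xi η (toR t)) (fun t ht => ?_) s.2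
            refine mul_nonneg (hc k t) ?_
            have h2 := hη _ (hS _ ht)
            have h3 : 0 ≤ c₀ * ‖toR t‖ := by positivity
            linarith
        _ = xi η (x k) := by
            rw [hxc k, xi_sum']
            refine Finset.sum_congr rfl (fun t _ => ?_)
            rw [xi_smul']
        _ ≤ M := hM k
  have hcomp : IsCompact (Set.pi Set.univ (fun s : S => Set.Icc (0 : ℝ) (b s))) :=
    isCompact_univ_pi (fun _ => isCompact_Icc)
  obtain ⟨a, ha, φ, hφ, hlim⟩ := hcomp.tendsto_subseq hmem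
  have hlim2 : Tendsto (fun k => x (φ k)) atTop (nhds (∑ s : S, a s • toR (s : Fin N → ℤ))) := by
    have h1 : (fun k => x (φ k)) = fun k => ∑ s : S, c' (φ k) s • toR (s : Fin N → ℤ) := by
      funext k
      exact hxc' (φ k)
    rw [h1]
    refine tendsto_finsetSum _ (fun s _ => ?_)
    exact ((tendsto_pi_nhds.1 hlim) s).smul_const _
  have hlim3 : Tendsto (fun k => x (φ k)) atTop (nhds y) := hx.comp hφ.tendsto_atTop
  have hy := tendsto_nhds_unique hlim3 hlim2
  rw [hy]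
  refine gen_sum _ _ (fun s _ => ?_)
  exact gen_smul (ha s (Set.mem_univ _)).1 (gen_mem s.2)

/-- the situation: a plane `W` and the two irrational lines on which the form vanishes; only one of them is known to
be nef -/
structure Ctx' {N : ℕ} (C : Set (V N)) (G : Subgroup (GL (Fin N) ℤ)) (F : V N → ℝ) (W : Submodule ℝ (V N))
    (e₁ e₂ : V N) (c : ℝ) (m : ℕ) : Prop where
  hC : IsAmp C
  hG : ∀ g ∈ G, ∀ x ∈ C, act g x ∈ C
  inv : ∀ g ∈ G, ∀ x, F (act g x) = F x
  pos : ∀ x ∈ C, 0 < F x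
  sum : e₁ + e₂ ∈ C
  cl₁ : e₁ ∈ closure C
  m0 : 0 < m
  form : ∀ a b : ℝ, F (a • e₁ + b • e₂) = c * (a * b) ^ m
  W₁ : e₁ ∈ W
  W₂ : e₂ ∈ W
  span : ∀ x ∈ W, ∃ a b : ℝ, x = a • e₁ + b • e₂

variable {N : ℕ} {C : Set (V N)} {G : Subgroup (GL (Fin N) ℤ)} {F : V N → ℝ} {W : Submodule ℝ (V N)}
  {e₁ e₂ : V N} {c : ℝ} {m : ℕ}

theorem Ctx'.indep (X : Ctx' C G F W e₁ e₂ c m) {a b a' b' : ℝ}
    (h : a • e₁ + b • e₂ = a' • e₁ + b' • e₂) : a = a' ∧ b = b' :=
  indep_pair X.hC F X.pos X.sum X.m0 X.form h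

theorem Ctx'.cpos (X : Ctx' C G F W e₁ e₂ c m) : 0 < c := by
  have h1 := X.pos _ X.sum
  have h2 := X.form 1 1
  rw [one_smul, one_smul, mul_one, one_pow, mul_one] at h2
  rwa [h2] at h1

theorem Ctx'.ctx (X : Ctx' C G F W e₁ e₂ c m) (h : e₂ ∈ closure C) : Ctx C G F W e₁ e₂ c m :=
  { hC := X.hC, hG := X.hG, inv := X.inv, pos := X.pos, sum := X.sum, cl₁ := X.cl₁, cl₂ := h, m0 := X.m0,
    form := X.form, W₁ := X.W₁, W₂ := X.W₂, span := X.span }

/-- the elements of the stabiliser fix or exchange the two rays -/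
theorem Ctx'.classify (X : Ctx' C G F W e₁ e₂ c m) {g : GL (Fin N) ℤ} (hg : g ∈ stab G W) :
    (∃ ν : ℝ, 0 < ν ∧ act g e₁ = ν • e₁ ∧ act g e₂ = ν⁻¹ • e₂) ∨
      (∃ ν : ℝ, 0 < ν ∧ act g e₁ = ν • e₂ ∧ act g e₂ = ν⁻¹ • e₁) := by
  have hc := X.cpos
  obtain ⟨a, b, hab⟩ := X.span _ ((hg.2 e₁).2 X.W₁)
  obtain ⟨a', b', hab'⟩ := X.span _ ((hg.2 e₂).2 X.W₂)
  have hsum : act g (e₁ + e₂) = (a + a') • e₁ + (b + b') • e₂ := by
    rw [act_add, hab, hab']
    module
  have hsC : 0 < a + a' ∧ 0 < b + b' := by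
    apply cone_pos X.hC F X.pos X.sum X.m0 X.form
    rw [← hsum]
    exact X.hG g hg.1 _ X.sum
  have key : ∀ x y : ℝ, ((x * a + y * a') * (x * b + y * b')) ^ m = (x * y) ^ m := by
    intro x y
    have h1 := X.inv g hg.1 (x • e₁ + y • e₂)
    have h2 : act g (x • e₁ + y • e₂) = (x * a + y * a') • e₁ + (x * b + y * b') • e₂ := by
      rw [act_add, act_smul, act_smul, hab, hab']
      module
    rw [h2, X.form, X.form] at h1
    exact mul_left_cancel₀ hc.ne' h1
  have k10 := key 1 0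
  have k01 := key 0 1
  have k11 := key 1 1
  simp only [one_mul, zero_mul, add_zero, zero_add, mul_zero, mul_one, zero_pow X.m0.ne', one_pow] at k10 k01 k11
  have z1 : a * b = 0 := (pow_eq_zero_iff X.m0.ne').1 k10
  have z2 : a' * b' = 0 := (pow_eq_zero_iff X.m0.ne').1 k01
  have z3 : (a + a') * (b + b') = 1 := by
    have h1 : 0 ≤ (a + a') * (b + b') := (mul_pos hsC.1 hsC.2).le
    exact (pow_eq_one_iff_of_nonneg h1 X.m0.ne').1 k11
  have hinv0 : ∀ e : V N, act g e = 0 → e = 0 := by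
    intro e he
    have h1 := congrArg (act g⁻¹) he
    rw [← act_mul, inv_mul_cancel, act_one] at h1
    have h2 : act g⁻¹ (0 : V N) = 0 := by
      have := act_smul g⁻¹ 0 (0 : V N)
      rwa [zero_smul, zero_smul] at this
    rw [h2] at h1
    exact h1
  have he₁ : e₁ ≠ 0 := by
    intro h1
    have h3 := (X.indep (a := 1) (b := 0) (a' := 0) (b' := 0) (by rw [h1]; simp)).1
    exact one_ne_zero h3
  have he₂ : e₂ ≠ 0 := by
    intro h1
    have h3 := (X.indep (a := 0) (b := 1) (a' := 0) (b' := 0) (by rw [h1]; simp)).2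
    exact one_ne_zero h3
  rcases mul_eq_zero.1 z1 with ha | hb
  · right
    have hb0 : b ≠ 0 := by
      rintro rfl
      rw [ha, zero_smul, zero_smul, add_zero] at hab
      exact he₁ (hinv0 _ hab)
    rw [ha, zero_add] at z3 hsC
    have hb' : b' = 0 := by
      rcases mul_eq_zero.1 z2 with h | h
      · exact absurd h hsC.1.ne'
      · exact h
    rw [hb', add_zero] at z3 hsC
    refine ⟨b, hsC.2, ?_, ?_⟩
    · rw [hab, ha, zero_smul, zero_add]
    · rw [hab', hb', zero_smul, add_zero]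
      congr 1
      exact eq_inv_of_mul_eq_one_left z3
  · left
    have ha0 : a ≠ 0 := by
      rintro rfl
      rw [hb, zero_smul, zero_smul, add_zero] at hab
      exact he₁ (hinv0 _ hab)
    rw [hb, zero_add] at z3 hsC
    have ha' : a' = 0 := by
      rcases mul_eq_zero.1 z2 with h | h
      · exact h
      · exact absurd h hsC.2.ne'
    rw [ha', add_zero] at z3 hsC
    refine ⟨a, hsC.1, ?_, ?_⟩
    · rw [hab, hb, zero_smul, add_zero]
    · rw [hab', ha', zero_smul, zero_add]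
      congr 1
      exact eq_inv_of_mul_eq_one_right z3

/-- without an element of infinite order the orbit of `e₁ + e₂` under the stabiliser has at most two elements -/
theorem Ctx'.orbit (X : Ctx' C G F W e₁ e₂ c m)
    (hno : ¬ ∃ g ∈ G, ∃ μ : ℝ, 1 < μ ∧ act g e₁ = μ • e₁ ∧ act g e₂ = μ⁻¹ • e₂) :
    ∃ σ ∈ stab G W, ∀ g ∈ stab G W, (∀ x ∈ W, act g x = x) ∨ ∀ x ∈ W, act g x = act σ x := by
  classical
  have hdiag : ∀ g ∈ stab G W, ∀ ν : ℝ, 0 < ν → act g e₁ = ν • e₁ → act g e₂ = ν⁻¹ • e₂ → ν = 1 := by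
    intro g hg ν hν h1 h2
    rcases lt_trichotomy ν 1 with h | h | h
    · exfalso
      apply hno
      have h3 := act_zpow hν.ne' h1 (-1)
      have h4 := act_zpow (inv_ne_zero hν.ne') h2 (-1)
      rw [zpow_neg_one, zpow_neg_one] at h3 h4
      exact ⟨g⁻¹, G.inv_mem hg.1, ν⁻¹, (one_lt_inv₀ hν).2 h, h3, h4⟩
    · exact h
    · exact absurd ⟨g, hg.1, ν, h, h1, h2⟩ hno
  have htriv : ∀ g ∈ stab G W, ∀ ν : ℝ, 0 < ν → act g e₁ = ν • e₁ → act g e₂ = ν⁻¹ • e₂ →
      ∀ x ∈ W, act g x = x := by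
    intro g hg ν hν h1 h2 x hx
    have h3 := hdiag g hg ν hν h1 h2
    rw [h3, one_smul] at h1
    rw [h3, inv_one, one_smul] at h2
    obtain ⟨a, b, rfl⟩ := X.span x hx
    rw [act_add, act_smul, act_smul, h1, h2]
  by_cases hns : ∀ g ∈ stab G W, ∃ ν : ℝ, 0 < ν ∧ act g e₁ = ν • e₁ ∧ act g e₂ = ν⁻¹ • e₂
  · refine ⟨1, stab_one, fun g hg => Or.inl ?_⟩
    obtain ⟨ν, hν, h1, h2⟩ := hns g hg
    exact htriv g hg ν hν h1 h2
  · push Not at hns
    obtain ⟨σ, hσ, hσn⟩ := hns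
    rcases X.classify hσ with ⟨ν, hν, h5, h6⟩ | ⟨ν, hν, h5, h6⟩
    · exact absurd h6 (hσn ν hν h5)
    · refine ⟨σ, hσ, fun g hg => ?_⟩
      rcases X.classify hg with ⟨ν', hν', h7, h8⟩ | ⟨ν', hν', h7, h8⟩
      · exact Or.inl (htriv g hg ν' hν' h7 h8)
      · right
        have hσi : σ⁻¹ * g ∈ stab G W := stab_mul (stab_inv hσ) hg
        have h9 : act σ⁻¹ e₂ = ν⁻¹ • e₁ := by
          have h10 := congrArg (act σ⁻¹) h5
          rw [← act_mul, inv_mul_cancel, act_one, act_smul] at h10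
          rw [h10, smul_smul, inv_mul_cancel₀ hν.ne', one_smul]
        have h9' : act σ⁻¹ e₁ = ν • e₂ := by
          have h10 := congrArg (act σ⁻¹) h6
          rw [← act_mul, inv_mul_cancel, act_one, act_smul] at h10
          rw [h10, smul_smul, mul_inv_cancel₀ hν.ne', one_smul]
        have h11 : act (σ⁻¹ * g) e₁ = (ν' * ν⁻¹) • e₁ := by
          rw [act_mul, h7, act_smul, h9, smul_smul]
        have h12 : act (σ⁻¹ * g) e₂ = (ν' * ν⁻¹)⁻¹ • e₂ := by
          rw [act_mul, h8, act_smul, h9', smul_smul, mul_inv, inv_inv]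
        have h13 := htriv _ hσi (ν' * ν⁻¹) (by positivity) h11 h12
        intro x hx
        have h14 := h13 x hx
        rw [act_mul] at h14
        have h15 := congrArg (act σ) h14
        rwa [← act_mul, mul_inv_cancel, act_one] at h15

end Pool.Agent.H49.IRE
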