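import Pool.Agent.H57.IR.Defs

/-!
# Definitions for the equivalences for irrational nef classes of small numerical dimension (no finiteness hypothesis)
-/

set_option autoImplicit false

namespace Pool.Agent.H49.IRE

open Pool.Agent.H57.KM Pool.Agent.H57.IR

/-- the top intersection form of `N^1(Y)`: integral, invariant, and the degree of an ample class grows strictly when a
nonzero nef class is added -/
structure TopForm {N d : ℕ} (D : NefData N) (I : MultilinearMap ℝ (fun _ : Fin d => V N) ℝ) : Prop where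
  int : ∀ s : Fin d → Fin N → ℤ, ∃ z : ℤ, I (fun i => toR (s i)) = z
  inv : ∀ g ∈ D.G, ∀ x : Fin d → V N, I (fun i => act g (x i)) = I x
  mono : ∀ x ∈ D.amp, ∀ y ∈ closure D.amp, y ≠ 0 → I (fun _ => x) < I (fun _ => x + y)

/-- the ample integral classes of `W` of bounded degree lie in finitely many orbits of the group -/
def FinOrb {N d : ℕ} (D : NefData N) (I : MultilinearMap ℝ (fun _ : Fin d => V N) ℝ) (W : Submodule ℝ (V N)) :
    Prop :=
  ∀ B : ℝ, ∃ S : Finset (Fin N → ℤ), ∀ s : Fin N → ℤ, toR s ∈ D.amp → toR s ∈ W → I (fun _ => toR s) ≤ B →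
    ∃ g ∈ D.G, ∃ s' ∈ S, toR s = act g (toR s')

/-- the same with the orbits of the stabiliser of `W` -/
def FinStab {N d : ℕ} (D : NefData N) (I : MultilinearMap ℝ (fun _ : Fin d => V N) ℝ) (W : Submodule ℝ (V N)) :
    Prop :=
  ∀ B : ℝ, ∃ S : Finset (Fin N → ℤ), ∀ s : Fin N → ℤ, toR s ∈ D.amp → toR s ∈ W → I (fun _ => toR s) ≤ B →
    ∃ g ∈ stab D.G W, ∃ s' ∈ S, toR s = act g (toR s')

theorem TopForm.smul {N d : ℕ} (I : MultilinearMap ℝ (fun _ : Fin d => V N) ℝ) (t : ℝ) (x : V N) :
    I (fun _ => t • x) = t ^ d * I (fun _ => x) := by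
  have h3 := MultilinearMap.map_smul_univ I (fun _ : Fin d => t) (fun _ : Fin d => x)
  rw [h3, Finset.prod_const, Finset.card_univ, Fintype.card_fin, smul_eq_mul]

theorem amp_ne_zero {N : ℕ} (D : NefData N) {v : V N} (hv : v ≠ 0) : ∀ x ∈ D.amp, x ≠ 0 := by
  rintro x hx rfl
  have h1 : ∀ y : V N, y ∈ D.amp := by
    intro y
    have hcont : Continuous (fun t : ℝ => t • y) := by fun_prop
    have h2 : (fun t : ℝ => t • y) ⁻¹' D.amp ∈ nhds (0 : ℝ) := by
      apply hcont.continuousAt.preimage_mem_nhds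
      apply D.isAmp.op.mem_nhds
      simpa using hx
    obtain ⟨δ, hδ, h3⟩ := Metric.mem_nhds_iff.1 h2
    have h4 : (δ / 2) • y ∈ D.amp := by
      apply h3
      rw [Metric.mem_ball, dist_zero_right, Real.norm_eq_abs, abs_of_pos (by positivity)]
      linarith
    have h5 := D.isAmp.smul (δ / 2)⁻¹ (by positivity) _ h4
    rwa [smul_smul, inv_mul_cancel₀ (by positivity), one_smul] at h5
  exact hv (D.isAmp.pointed v (subset_closure (h1 v)) (subset_closure (h1 (-v))))

/-- the degree of an ample class is positive -/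
theorem TopForm.pos {N d : ℕ} {D : NefData N} {I : MultilinearMap ℝ (fun _ : Fin d => V N) ℝ} (hI : TopForm D I)
    (hd : 0 < d) {v : V N} (hv : v ≠ 0) : ∀ x ∈ D.amp, 0 < I (fun _ => x) := by
  intro x hx
  have h1 := hI.mono x hx x (subset_closure hx) (amp_ne_zero D hv x hx)
  have h2 : (fun _ : Fin d => x + x) = fun _ : Fin d => (2 : ℝ) • x := by
    funext i
    rw [two_smul]
  rw [h2, TopForm.smul] at h1
  have h3 : (1 : ℝ) < 2 ^ d := one_lt_pow₀ one_lt_two hd.ne'
  nlinarith

end Pool.Agent.H49.IRE
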