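import Pool.Agent.H49.IRE.Auto

/-!
# Irrational nef classes of small numerical dimension: the equivalences
-/

set_option autoImplicit false

namespace Pool.Agent.H49.IRE

open Pool.Agent.H57.KM Pool.Agent.H57.IR Filter

theorem gen_closure {N : ℕ} (D : NefData N) {S : Finset (Fin N → ℤ)}
    (hS : ∀ s ∈ S, toR s ∈ closure D.amp ∩ D.eff) {y : V N} (hy : gen S y) : y ∈ closure D.amp ∩ D.eff := by
  classical
  obtain ⟨c, hc, rfl⟩ := hy
  have key : ∀ A : Finset (Fin N → ℤ), A ⊆ S → ∑ s ∈ A, c s • toR s ∈ closure D.amp ∩ D.eff := by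
    intro A
    induction A using Finset.induction_on with
    | empty =>
      intro _
      rw [Finset.sum_empty]
      exact ⟨D.isAmp.zero_closure, D.eff_zero⟩
    | insert a A ha ih =>
      intro hA
      rw [Finset.sum_insert ha]
      have h1 := ih ((Finset.subset_insert _ _).trans hA)
      have h2 := hS a (hA (Finset.mem_insert_self _ _))
      refine ⟨D.isAmp.closure_add _ (D.isAmp.closure_smul _ (hc a) _ h2.1) _ h1.1, ?_⟩
      rcases (hc a).eq_or_lt with h0 | h0
      · rw [← h0, zero_smul, zero_add]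
        exact h1.2
      · exact D.eff_add _ (D.eff_smul _ h0 _ h2.2) _ h1.2
  exact key S (Finset.Subset.refl _)

/-- Q1 for the slice gives the automorphism -/
theorem Ctx'.auto_of_slice {N : ℕ} {D : NefData N} {F : V N → ℝ} {W : Submodule ℝ (V N)} {e₁ e₂ : V N} {c : ℝ} {m : ℕ}
    (X : Ctx' D.amp D.G F W e₁ e₂ c m) (hne : e₁ ∉ convexHull ℝ {x | x ∈ closure D.amp ∧ ∃ q : Fin N → ℚ, x = qR q})
    (hQ : SliceQ1 D W) : ∃ g ∈ D.G, ∃ μ : ℝ, 1 < μ ∧ act g e₁ = μ • e₁ ∧ act g e₂ = μ⁻¹ • e₂ := by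
  classical
  by_contra hno
  obtain ⟨σ, hσ, hσ2⟩ := X.orbit hno
  obtain ⟨P, ⟨S, rfl⟩, hcov, -⟩ := hQ
  have hSmem : ∀ s ∈ S, toR s ∈ closure D.amp ∩ D.eff ∩ W := by
    intro s hs
    rw [hcov]
    exact Set.mem_biUnion stab_one ⟨toR s, gen_mem hs, act_one _⟩
  have hS2 : ∀ s ∈ S ∪ S.image (actZ σ), toR s ∈ closure D.amp ∩ D.eff := by
    intro s hs
    rw [Finset.mem_union, Finset.mem_image] at hs
    rcases hs with hs | ⟨t, ht, rfl⟩
    · exact (hSmem s hs).1
    · rw [toR_actZ]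
      have h1 := (hSmem t ht).1
      exact ⟨act_closure (D.act_amp σ hσ.1) _ h1.1, D.act_eff σ hσ.1 _ h1.2⟩
  have hg : ∀ k : ℕ, gen (S ∪ S.image (actZ σ)) (e₁ + (1 / ((k : ℝ) + 1)) • (e₁ + e₂)) := by
    intro k
    have hk : (0 : ℝ) < 1 / ((k : ℝ) + 1) := by positivity
    have hxC : e₁ + (1 / ((k : ℝ) + 1)) • (e₁ + e₂) ∈ D.amp :=
      D.isAmp.add_mem _ X.cl₁ _ (D.isAmp.smul _ hk _ X.sum)
    have hxW : e₁ + (1 / ((k : ℝ) + 1)) • (e₁ + e₂) ∈ W := W.add_mem X.W₁ (W.smul_mem _ (W.add_mem X.W₁ X.W₂))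
    have hx : e₁ + (1 / ((k : ℝ) + 1)) • (e₁ + e₂) ∈ closure D.amp ∩ D.eff ∩ W :=
      ⟨⟨subset_closure hxC, D.amp_eff hxC⟩, hxW⟩
    rw [hcov, Set.mem_iUnion₂] at hx
    obtain ⟨g, hg, y, hy, hgy⟩ := hx
    have hyW : y ∈ W := by
      rw [← hg.2, hgy]
      exact hxW
    rw [← hgy]
    obtain ⟨a, ha, rfl⟩ := hy
    rcases hσ2 g hg with h | h
    · rw [h _ hyW]
      exact gen_sum _ _ (fun s hs => gen_smul (ha s) (gen_mem (Finset.mem_union_left _ hs)))
    · rw [h _ hyW]
      have h3 : act σ (∑ s ∈ S, a s • toR s) = ∑ s ∈ S, a s • toR (actZ σ s) := by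
        have key : ∀ A : Finset (Fin N → ℤ), act σ (∑ s ∈ A, a s • toR s) = ∑ s ∈ A, a s • toR (actZ σ s) := by
          intro A
          induction A using Finset.induction_on with
          | empty =>
            rw [Finset.sum_empty, Finset.sum_empty]
            exact act_zero
          | insert b A hb ih => rw [Finset.sum_insert hb, Finset.sum_insert hb, act_add, act_smul, ih, toR_actZ]
        exact key S
      rw [h3]
      exact gen_sum _ _ (fun s hs => gen_smul (ha s)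
        (gen_mem (Finset.mem_union_right _ (Finset.mem_image_of_mem _ hs))))
  have hlim : Tendsto (fun k : ℕ => e₁ + (1 / ((k : ℝ) + 1)) • (e₁ + e₂)) atTop (nhds e₁) := by
    have h1 := (tendsto_one_div_add_atTop_nhds_zero_nat (𝕜 := ℝ)).smul_const (e₁ + e₂)
    have h2 := h1.const_add e₁
    rw [zero_smul, add_zero] at h2
    exact h2
  have h1 := gen_lim D.isAmp _ (fun s hs => (hS2 s hs).1) _ _ hlim hg
  exact hne (D.nef_eff (gen_closure D hS2 h1))

theorem main {N d m : ℕ} (D : NefData N) (I : MultilinearMap ℝ (fun _ : Fin d => V N) ℝ) (hI : TopForm D I)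
    (hd : 0 < d) (hm : 2 * m ≤ d) (h u : Fin N → ℤ) (hh : toR h ∈ D.amp) (p : V N) (hp : p ∈ closure D.amp)
    (hpW : p ∈ Submodule.span ℝ {toR h, toR u}) (hirr : ∀ (q : Fin N → ℚ) (t : ℝ), p ≠ t • qR q)
    (hnd : NumDimLe I p m) :
    d = 2 * m ∧ ∃ (p' : V N) (c : ℝ), p' ∈ Submodule.span ℝ {toR h, toR u} ∧ 0 < c ∧
      (∀ x ∈ Submodule.span ℝ {toR h, toR u}, ∃ a b : ℝ, x = a • p + b • p') ∧
      (∀ a b : ℝ, I (fun _ => a • p + b • p') = c * (a * b) ^ m) ∧
      (∀ a b : ℝ, a • p + b • p' ∈ D.amp → 0 < a ∧ 0 < b) ∧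
      [SliceQ1 D (Submodule.span ℝ {toR h, toR u}), FinOrb D I (Submodule.span ℝ {toR h, toR u}),
        FinStab D I (Submodule.span ℝ {toR h, toR u}),
        ∃ g ∈ D.G, ∃ μ : ℝ, 1 < μ ∧ act g p = μ • p ∧ act g p' = μ⁻¹ • p',
        {x | ∃ g ∈ stab D.G (Submodule.span ℝ {toR h, toR u}), x = act g (toR h)}.Infinite].TFAE ∧
      (SliceQ1 D (Submodule.span ℝ {toR h, toR u}) →
        (∀ a b : ℝ, a • p + b • p' ∈ closure D.amp ↔ 0 ≤ a ∧ 0 ≤ b) ∧
        ∀ a b : ℝ, a • p + b • p' ∈ closure D.amp ∩ D.eff ↔ (0 < a ∧ 0 < b) ∨ (a = 0 ∧ b = 0)) ∧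
      (D.Q1 → FinOrb D I ⊤) ∧ (FinOrb D I ⊤ → SliceQ1 D (Submodule.span ℝ {toR h, toR u})) ∧
      (N = 2 → [D.Q1, FinOrb D I ⊤, Infinite D.G].TFAE) := by
  classical
  set W : Submodule ℝ (V N) := Submodule.span ℝ {toR h, toR u} with hWdef
  have hhW : toR h ∈ W := Submodule.subset_span (by simp)
  have huW : toR u ∈ W := Submodule.subset_span (by simp)
  obtain ⟨α, b, hpab⟩ := Submodule.mem_span_pair.1 hpW
  have hp0 : p ≠ 0 := by
    intro h0
    apply hirr 0 0
    rw [h0, zero_smul]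
  have hIpos := hI.pos hd hp0
  -- `b ≠ 0`
  have hb : b ≠ 0 := by
    rintro rfl
    apply hirr (fun i => (h i : ℚ)) α
    rw [← irr_toR, ← hpab, zero_smul, add_zero]
  obtain ⟨θ, hθ⟩ : ∃ θ : ℝ, θ = α / b := ⟨_, rfl⟩
  have hpθ : p = b • (θ • toR h + toR u) := by
    rw [hθ, ← hpab, smul_add, smul_smul, mul_div_cancel₀ _ hb]
  have hθirr : Irrational θ := by
    rintro ⟨q, hq⟩
    apply hirr (q • (fun i => (h i : ℚ)) + fun i => (u i : ℚ)) b
    rw [irr_qR_add, irr_qR_smul, ← irr_toR, ← irr_toR, hq, hpθ]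
  have hIh : 0 < I (fun _ => toR h) := hIpos _ hh
  obtain ⟨hdm, s, t, hst, hform⟩ := form_quad (m := m) I hd (toR h) (toR u) p (fun S => by
    obtain ⟨z, hz⟩ := hI.int (S.piecewise (fun _ => h) (fun _ => u))
    refine ⟨z, ?_⟩
    rw [← hz]
    congr 1
    funext i
    by_cases hi : i ∈ S
    · simp [hi]
    · simp [hi]) hIh.ne' hθirr hb hpθ (fun x hx => hnd x (by
      unfold NumDimLe at hnd
      exact lt_of_lt_of_eq hx (by congr))) hm
  have hm0 : 0 < m := by omega
  obtain ⟨θ', hθ'⟩ : ∃ θ' : ℝ, θ' = s - θ := ⟨_, rfl⟩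
  have hθ'irr : Irrational θ' := by
    rw [hθ']
    exact (irrational_ratCast_sub_iff).2 hθirr
  have hprod : θ * θ' = t := by
    rw [hθ']
    linear_combination (-1 : ℝ) * hst
  have hδ : θ - θ' ≠ 0 := by
    intro h0
    apply hθirr
    refine ⟨s / 2, ?_⟩
    push_cast
    rw [hθ'] at h0
    linarith
  have hquad : ∀ x y : ℝ, I (fun _ => x • toR h + y • toR u) =
      I (fun _ => toR h) * ((x - θ' * y) * (x - θ * y)) ^ m := by
    intro x y
    rw [hform]
    congr 2
    rw [← hprod, hθ']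
    ring
  -- sign
  have hsgn : 0 < b * (θ - θ') := by
    by_contra hneg
    have hneg' : b * (θ - θ') < 0 := lt_of_le_of_ne (not_lt.1 hneg) (mul_ne_zero hb hδ)
    have h1 : p + (-(b * (θ - θ'))) • toR h ∈ D.amp :=
      D.isAmp.add_mem _ hp _ (D.isAmp.smul _ (by linarith) _ hh)
    have h2 := hIpos _ h1
    have h3 : p + (-(b * (θ - θ'))) • toR h = (b * θ') • toR h + b • toR u := by
      rw [hpθ]
      module
    rw [h3, hquad] at h2
    have h4 : (b * θ' - θ' * b) * (b * θ' - θ * b) = 0 := by ring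
    rw [h4, zero_pow hm0.ne', mul_zero] at h2
    exact lt_irrefl _ h2
  -- the eigenvectors
  obtain ⟨e₁, he₁⟩ : ∃ e₁ : V N, e₁ = (θ - θ')⁻¹ • (θ • toR h + toR u) := ⟨_, rfl⟩
  obtain ⟨e₂, he₂⟩ : ∃ e₂ : V N, e₂ = (-(θ - θ')⁻¹) • (θ' • toR h + toR u) := ⟨_, rfl⟩
  have hpe : p = (b * (θ - θ')) • e₁ := by
    rw [he₁, smul_smul, mul_assoc, mul_inv_cancel₀ hδ, mul_one]
    exact hpθ
  have he₁p : e₁ = (b * (θ - θ'))⁻¹ • p := by
    rw [hpe, smul_smul, inv_mul_cancel₀ hsgn.ne', one_smul]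
  have hcoord : ∀ x y : ℝ, x • toR h + y • toR u = (x - θ' * y) • e₁ + (x - θ * y) • e₂ := by
    intro x y
    have h1 : (x - θ' * y) • e₁ + (x - θ * y) • e₂ =
        ((θ - θ')⁻¹ * (θ - θ')) • (x • toR h + y • toR u) := by
      rw [he₁, he₂]
      module
    rw [h1, inv_mul_cancel₀ hδ, one_smul]
  have hsum : toR h = e₁ + e₂ := by
    have h1 := hcoord 1 0
    simpa using h1
  have he₁cl : e₁ ∈ closure D.amp := by
    rw [he₁p]
    exact D.isAmp.closure_smul _ (inv_nonneg.2 hsgn.le) _ hp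
  have hFe : ∀ a c : ℝ, I (fun _ => a • e₁ + c • e₂) = I (fun _ => toR h) * (a * c) ^ m := by
    intro a c
    have h1 : a • e₁ + c • e₂ = ((a * θ - c * θ') / (θ - θ')) • toR h + ((a - c) / (θ - θ')) • toR u := by
      rw [hcoord]
      congr 2
      · field_simp
        ring
      · field_simp
        ring
    rw [h1, hquad]
    congr 2
    field_simp
    ring
  have he₁W : e₁ ∈ W := by
    rw [he₁]
    exact W.smul_mem _ (W.add_mem (W.smul_mem _ hhW) huW)
  have he₂W : e₂ ∈ W := by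
    rw [he₂]
    exact W.smul_mem _ (W.add_mem (W.smul_mem _ hhW) huW)
  have X : Ctx' D.amp D.G (fun x => I (fun _ => x)) W e₁ e₂ (I (fun _ => toR h)) m :=
    { hC := D.isAmp
      hG := D.act_amp
      inv := fun g hg x => hI.inv g hg (fun _ => x)
      pos := hIpos
      sum := by rw [← hsum]; exact hh
      cl₁ := he₁cl
      m0 := hm0
      form := hFe
      W₁ := he₁W
      W₂ := he₂W
      span := by
        intro x hx
        obtain ⟨x₁, x₂, rfl⟩ := Submodule.mem_span_pair.1 hx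
        exact ⟨_, _, hcoord _ _⟩ }
  -- the irrational rays are not in the hull of the rational nef classes
  have he₁n : e₁ ∉ convexHull ℝ {x | x ∈ closure D.amp ∧ ∃ q : Fin N → ℚ, x = qR q} := by
    have h1 : e₁ ∉ D.amp := by
      intro hmem
      have h2 := hIpos _ hmem
      have h3 := hFe 1 0
      rw [one_smul, zero_smul, add_zero, mul_zero, zero_pow hm0.ne', mul_zero] at h3
      rw [h3] at h2
      exact lt_irrefl _ h2
    rw [he₁] at h1 ⊢
    exact not_mem_hull D.isAmp h u hh hθirr (inv_ne_zero hδ) h1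
  -- the integral vectors
  obtain ⟨lam, hlam, hseq⟩ := pell_seq hθirr hst
  choose xs ys hxy1 hxy2 using hseq
  have hv : ∀ j, toR (xs j • h + ys j • u) = lam ^ j • e₁ + (lam⁻¹) ^ j • e₂ := by
    intro j
    have h1 : toR (xs j • h + ys j • u) = (xs j : ℝ) • toR h + (ys j : ℝ) • toR u := by
      funext i
      simp [toR]
    rw [h1, hcoord, ← hxy1 j, ← hxy2 j, hθ']
  -- the automorphism
  let A : Prop := ∃ g ∈ D.G, ∃ μ : ℝ, 1 < μ ∧ act g e₁ = μ • e₁ ∧ act g e₂ = μ⁻¹ • e₂
  have hAp : A ↔ ∃ g ∈ D.G, ∃ μ : ℝ, 1 < μ ∧ act g p = μ • p ∧ act g e₂ = μ⁻¹ • e₂ := by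
    constructor
    · rintro ⟨g, hg, μ, hμ, h1, h2⟩
      refine ⟨g, hg, μ, hμ, ?_, h2⟩
      have h3 : act g p = (b * (θ - θ')) • act g e₁ := by
        conv_lhs => rw [hpe]
        exact act_smul _ _ _
      rw [h3, h1, smul_comm, ← hpe]
    · rintro ⟨g, hg, μ, hμ, h1, h2⟩
      refine ⟨g, hg, μ, hμ, ?_, h2⟩
      have h3 : act g e₁ = (b * (θ - θ'))⁻¹ • act g p := by
        conv_lhs => rw [he₁p]
        exact act_smul _ _ _
      rw [h3, h1, smul_comm, ← he₁p]
  have hFinA : FinOrb D I W → A := by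
    intro hfin
    obtain ⟨g, hg, k, hk, hge₁, hge₂⟩ := auto_of_finW D.isAmp D.G D.act_amp (fun x => I (fun _ => x)) W hfin
      e₁ e₂ he₁cl he₁W he₂W (by rw [← hsum]; exact hh) _ m hFe lam hlam _ hv
    rw [inv_pow] at hge₂
    exact ⟨g, hg, lam ^ k, one_lt_pow₀ hlam hk.ne', hge₁, hge₂⟩
  have hAcl : A → e₂ ∈ closure D.amp := by
    rintro ⟨g, hg, μ, hμ, h1, h2⟩
    exact e2_closure D.isAmp D.act_amp hg hμ h1 h2 X.sum
  -- the effective nef cone in the plane
  have hz0 : (0 : V N) ∈ closure D.amp ∩ D.eff := ⟨D.isAmp.zero_closure, D.eff_zero⟩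
  have hne : e₂ ∈ closure D.amp → ∀ a c : ℝ, a • e₁ + c • e₂ ∈ closure D.amp ∩ D.eff ↔
      (0 < a ∧ 0 < c) ∨ (a = 0 ∧ c = 0) := by
    intro he₂cl a c
    have Y := X.ctx he₂cl
    constructor
    · intro hmem
      obtain ⟨ha, hc⟩ := (closure_iff X.hC _ X.pos X.sum X.m0 X.form X.cl₁ he₂cl a c).1 hmem.1
      rcases ha.eq_or_lt with ha0 | ha0
      · rcases hc.eq_or_lt with hc0 | hc0
        · exact Or.inr ⟨ha0.symm, hc0.symm⟩
        · exfalso
          have h1 : a • e₁ + c • e₂ ∉ D.amp := by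
            intro h3
            have := ((Y.mem_iff a c).1 h3).1
            linarith
          have h2 := D.nef_eff hmem
          rw [← ha0, zero_smul, zero_add] at h1 h2
          have h3 : c • e₂ = (c * -(θ - θ')⁻¹) • (θ' • toR h + toR u) := by
            rw [he₂, smul_smul]
          rw [h3] at h1 h2
          exact not_mem_hull D.isAmp h u hh hθ'irr (mul_ne_zero hc0.ne' (neg_ne_zero.2 (inv_ne_zero hδ))) h1 h2
      · rcases hc.eq_or_lt with hc0 | hc0
        · exfalso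
          have h1 : a • e₁ + c • e₂ ∉ D.amp := by
            intro h3
            have := ((Y.mem_iff a c).1 h3).2
            linarith
          have h2 := D.nef_eff hmem
          rw [← hc0, zero_smul, add_zero] at h1 h2
          have h3 : a • e₁ = (a * (θ - θ')⁻¹) • (θ • toR h + toR u) := by
            rw [he₁, smul_smul]
          rw [h3] at h1 h2
          exact not_mem_hull D.isAmp h u hh hθirr (mul_ne_zero ha0.ne' (inv_ne_zero hδ)) h1 h2
        · exact Or.inl ⟨ha0, hc0⟩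
    · rintro (hac | ⟨rfl, rfl⟩)
      · have h1 := (Y.mem_iff a c).2 hac
        exact ⟨subset_closure h1, D.amp_eff h1⟩
      · rw [zero_smul, zero_smul, add_zero]
        exact hz0
  have hASQ : A → SliceQ1 D W := by
    intro hA
    have he₂cl := hAcl hA
    have Y := X.ctx he₂cl
    obtain ⟨g, hg, μ, hμ, hge₁, hge₂⟩ := hA
    have hslice : closure D.amp ∩ D.eff ∩ W = (D.amp ∩ W) ∪ {0} := by
      apply Set.Subset.antisymm
      · rintro x ⟨hx, hxW⟩
        obtain ⟨a, c, rfl⟩ := X.span x hxW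
        rcases (hne he₂cl a c).1 hx with hac | ⟨rfl, rfl⟩
        · exact Or.inl ⟨(Y.mem_iff a c).2 hac, hxW⟩
        · right
          rw [zero_smul, zero_smul, add_zero]
          exact Set.mem_singleton _
      · rintro x (⟨hx, hxW⟩ | hx)
        · exact ⟨⟨subset_closure hx, D.amp_eff hx⟩, hxW⟩
        · rw [Set.mem_singleton_iff] at hx
          rw [hx]
          exact ⟨hz0, W.zero_mem⟩
    obtain ⟨P, hP, hcov, hdis⟩ := Y.fund hsum hg hμ hge₁ hge₂
    exact ⟨P, hP, by rw [hslice, hcov], hdis⟩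
  have hSA : SliceQ1 D W → A := fun hQ => X.auto_of_slice he₁n hQ
  have hAFS : A → FinStab D I W := by
    rintro ⟨g, hg, μ, hμ, h1, h2⟩ B
    exact X.fin_of_auto hg hμ h1 h2 B
  have hFSF : FinStab D I W → FinOrb D I W := by
    intro hF B
    obtain ⟨S, hS⟩ := hF B
    refine ⟨S, fun s h1 h2 h3 => ?_⟩
    obtain ⟨g, hg, s', hs', h4⟩ := hS s h1 h2 h3
    exact ⟨g, hg.1, s', hs', h4⟩
  have hAinf : A → {x | ∃ g ∈ stab D.G W, x = act g (toR h)}.Infinite := by
    rintro ⟨g, hg, μ, hμ, h1, h2⟩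
    rw [hsum]
    exact X.inf_of_auto hg hμ h1 h2
  have hinfA : {x | ∃ g ∈ stab D.G W, x = act g (toR h)}.Infinite → A := by
    intro hinf
    by_contra hno
    obtain ⟨σ, hσ, hσ2⟩ := X.orbit hno
    apply hinf
    refine (Set.toFinite {toR h, act σ (toR h)}).subset ?_
    rintro x ⟨g, hg, rfl⟩
    rcases hσ2 g hg with h1 | h1
    · rw [h1 _ hhW]
      simp
    · rw [h1 _ hhW]
      simp
  have hFW : FinOrb D I ⊤ → FinOrb D I W := by
    intro hF B
    obtain ⟨S, hS⟩ := hF B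
    exact ⟨S, fun s h1 _ h3 => hS s h1 Submodule.mem_top h3⟩
  refine ⟨hdm, e₂, I (fun _ => toR h) * (b * (θ - θ')) ^ m, he₂W, by positivity, ?_, ?_, ?_, ?_, ?_, ?_, ?_, ?_⟩
  · intro x hx
    obtain ⟨a, c, rfl⟩ := X.span x hx
    refine ⟨a * (b * (θ - θ'))⁻¹, c, ?_⟩
    rw [mul_smul, ← he₁p]
  · intro a c
    have h1 : a • p + c • e₂ = (a * (b * (θ - θ'))) • e₁ + c • e₂ := by
      rw [hpe, smul_smul]
    rw [h1, hFe, mul_assoc (I fun _ => toR h), ← mul_pow]
    congr 2
    ring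
  · intro a c hac
    have h1 : a • p + c • e₂ = (a * (b * (θ - θ'))) • e₁ + c • e₂ := by
      rw [hpe, smul_smul]
    rw [h1] at hac
    obtain ⟨h2, h3⟩ := cone_pos X.hC _ X.pos X.sum X.m0 X.form hac
    exact ⟨(mul_pos_iff_of_pos_right hsgn).1 h2, h3⟩
  · rw [← hAp]
    tfae_have 1 → 4 := hSA
    tfae_have 4 → 3 := hAFS
    tfae_have 3 → 2 := hFSF
    tfae_have 2 → 4 := hFinA
    tfae_have 4 → 1 := hASQ
    tfae_have 4 → 5 := hAinf
    tfae_have 5 → 4 := hinfA
    tfae_finish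
  · intro hQ
    have he₂cl := hAcl (hSA hQ)
    constructor
    · intro a c
      have h1 : a • p + c • e₂ = (a * (b * (θ - θ'))) • e₁ + c • e₂ := by
        rw [hpe, smul_smul]
      rw [h1, closure_iff X.hC _ X.pos X.sum X.m0 X.form X.cl₁ he₂cl, mul_nonneg_iff_of_pos_right hsgn]
    · intro a c
      have h1 : a • p + c • e₂ = (a * (b * (θ - θ'))) • e₁ + c • e₂ := by
        rw [hpe, smul_smul]
      rw [h1, hne he₂cl, mul_pos_iff_of_pos_right hsgn, mul_eq_zero, or_iff_left hsgn.ne']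
  · exact q1_fin hI hIpos
  · exact fun hF => hASQ (hFinA (hFW hF))
  · intro hN
    have hW : W = ⊤ := by
      apply Submodule.eq_top_of_finrank_eq
      have hli : LinearIndependent ℝ ![e₁, e₂] := by
        rw [LinearIndependent.pair_iff]
        intro x y hxy
        exact X.indep (a := x) (b := y) (a' := 0) (b' := 0) (by rw [hxy]; simp)
      have h1 : Module.finrank ℝ (V N) = 2 := by
        rw [Module.finrank_fintype_fun_eq_card, Fintype.card_fin, hN]
      have h2 : 2 ≤ Module.finrank ℝ W := by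
        have h3 : Submodule.span ℝ (Set.range ![e₁, e₂]) ≤ W := by
          rw [Submodule.span_le]
          rintro _ ⟨i, rfl⟩
          fin_cases i
          · exact he₁W
          · exact he₂W
        have h4 := finrank_span_eq_card hli
        rw [Fintype.card_fin] at h4
        exact h4.ge.trans (Submodule.finrank_mono h3)
      have h3 : Module.finrank ℝ W ≤ Module.finrank ℝ (V N) := Submodule.finrank_le W
      omega
    tfae_have 1 → 2 := q1_fin hI hIpos
    tfae_have 2 → 3 := by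
      intro hF
      have h1 := hAinf (hFinA (hFW hF))
      by_contra hfin
      have : Finite D.G := not_infinite_iff_finite.1 hfin
      apply h1
      refine (Set.finite_range (fun g : D.G => act (g : GL (Fin N) ℤ) (toR h))).subset ?_
      rintro x ⟨g, hg, rfl⟩
      exact ⟨⟨g, hg.1⟩, rfl⟩
    tfae_have 3 → 1 := by
      intro hinf
      have hA : A := by
        by_contra hno
        obtain ⟨σ, hσ, hσ2⟩ := X.orbit hno
        have hst : ∀ g ∈ D.G, g ∈ stab D.G W := by
          intro g hg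
          rw [hW]
          exact ⟨hg, fun x => ⟨fun _ => Submodule.mem_top, fun _ => Submodule.mem_top⟩⟩
        have h2 : ∀ g ∈ D.G, g = 1 ∨ g = σ := by
          intro g hg
          rcases hσ2 g (hst g hg) with h1 | h1
          · left
            apply act_inj
            intro x
            rw [act_one]
            exact h1 x (by rw [hW]; exact Submodule.mem_top)
          · right
            apply act_inj
            intro x
            exact h1 x (by rw [hW]; exact Submodule.mem_top)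
        have h3 : (D.G : Set (GL (Fin N) ℤ)).Finite := by
          refine (Set.toFinite {1, σ}).subset ?_
          intro g hg
          rcases h2 g hg with h4 | h4
          · simp [h4]
          · simp [h4]
        exact not_finite_iff_infinite.2 hinf h3.to_subtype
      have h1 := hASQ hA
      rw [hW] at h1
      exact h1.q1
    tfae_finish

end Pool.Agent.H49.IRE
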