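import Pool.Agent.H49.IRE.Defs
import Pool.Agent.H57.KM.MW

/-!
# Q1 implies that the ample integral classes of bounded degree form finitely many orbits
-/

set_option autoImplicit false

namespace Pool.Agent.H49.IRE

open Pool.Agent.H57.KM Pool.Agent.H57.IR

theorem toR_sub' {N : ℕ} (s t : Fin N → ℤ) : toR (s - t) = toR s - toR t := by
  funext i
  simp [toR]

theorem toR_sum' {N : ℕ} {ι : Type*} (A : Finset ι) (f : ι → Fin N → ℤ) :
    toR (∑ i ∈ A, f i) = ∑ i ∈ A, toR (f i) := by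
  funext j
  simp [toR, Finset.sum_apply]

theorem toR_nsmul' {N : ℕ} (k : ℕ) (s : Fin N → ℤ) : toR (k • s) = (k : ℝ) • toR s := by
  funext i
  simp [toR]

theorem toR_inj' {N : ℕ} {s t : Fin N → ℤ} (h : toR s = toR t) : s = t := by
  funext i
  have h2 := congrFun h i
  unfold toR at h2
  exact_mod_cast h2

/-- the ample integral classes of a rational polyhedral cone of nef classes, of a given degree, are finitely many -/
theorem fin_level {N : ℕ} {C : Set (V N)} (hC : IsAmp C) (F : V N → ℝ)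
    (hmono : ∀ x ∈ C, ∀ y ∈ closure C, y ≠ 0 → F x < F (x + y)) (S : Finset (Fin N → ℤ))
    (hS : ∀ s ∈ S, toR s ∈ closure C) (z : ℝ) :
    {y : Fin N → ℤ | toR y ∈ C ∧ gen S (toR y) ∧ F (toR y) = z}.Finite := by
  classical
  by_contra hinf
  let T : Set (Fin N → ℤ) := {y : Fin N → ℤ | toR y ∈ C ∧ gen S (toR y) ∧ F (toR y) = z}
  have hT : T.Infinite := hinf
  let y : ℕ ↪ T := hT.natEmbedding
  have hy1 : ∀ k, toR (y k : Fin N → ℤ) ∈ C := fun k => (y k).2.1
  have hy2 : ∀ k, gen S (toR (y k : Fin N → ℤ)) := fun k => (y k).2.2.1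
  have hy3 : ∀ k, F (toR (y k : Fin N → ℤ)) = z := fun k => (y k).2.2.2
  choose c hc0 hc using hy2
  let n : ℕ → S → ℕ := fun k s => ⌊c k s⌋₊
  let R : ℝ := ∑ s ∈ S, ‖toR s‖
  let r : ℕ → Fin N → ℤ := fun k => (y k : Fin N → ℤ) - ∑ s : S, n k s • (s : Fin N → ℤ)
  have hr0 : ∀ k, toR (r k) = ∑ s : S, (c k s - (n k s : ℝ)) • toR (s : Fin N → ℤ) := by
    intro k
    change toR ((y k : Fin N → ℤ) - ∑ s : S, n k s • (s : Fin N → ℤ)) = _
    rw [toR_sub', toR_sum', hc k, ← Finset.sum_coe_sort S, ← Finset.sum_sub_distrib]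
    refine Finset.sum_congr rfl (fun s _ => ?_)
    rw [toR_nsmul', sub_smul]
  have hr : ∀ k, ‖toR (r k)‖ ≤ R := by
    intro k
    rw [hr0 k]
    refine (norm_sum_le _ _).trans ?_
    change _ ≤ ∑ s ∈ S, ‖toR s‖
    rw [← Finset.sum_coe_sort S]
    refine Finset.sum_le_sum (fun s _ => ?_)
    rw [norm_smul, Real.norm_eq_abs]
    have h1 : (n k s : ℝ) ≤ c k s := Nat.floor_le (hc0 k s)
    have h2 : c k s < (n k s : ℝ) + 1 := Nat.lt_floor_add_one _
    have h3 : |c k s - (n k s : ℝ)| ≤ 1 := by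
      rw [abs_le]
      constructor <;> linarith
    calc |c k s - (n k s : ℝ)| * ‖toR (s : Fin N → ℤ)‖ ≤ 1 * ‖toR (s : Fin N → ℤ)‖ :=
          mul_le_mul_of_nonneg_right h3 (norm_nonneg _)
      _ = ‖toR (s : Fin N → ℤ)‖ := one_mul _
  have hfin := dyn_finite_ball (n := N) R
  have : Finite {v : Fin N → ℤ // ‖toR v‖ ≤ R} := hfin.to_subtype
  have hw : WellQuasiOrdered (fun a b : (S → ℕ) × {v : Fin N → ℤ // ‖toR v‖ ≤ R} =>
      a.1 ≤ b.1 ∧ a.2 = b.2) :=
    WellQuasiOrdered.prod wellQuasiOrdered_le (Finite.wellQuasiOrdered (· = ·))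
  obtain ⟨k, l, hkl, h1, h2⟩ := hw (fun k => (n k, ⟨r k, hr k⟩))
  simp only [Subtype.mk.injEq] at h2
  let w : V N := ∑ s : S, ((n l s : ℝ) - n k s) • toR (s : Fin N → ℤ)
  have hwcl : w ∈ closure C := by
    have key : ∀ A : Finset S, ∑ s ∈ A, ((n l s : ℝ) - n k s) • toR (s : Fin N → ℤ) ∈ closure C := by
      intro A
      induction A using Finset.induction_on with
      | empty =>
        rw [Finset.sum_empty]
        exact hC.zero_closure
      | insert a A ha ih =>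
        rw [Finset.sum_insert ha]
        refine hC.closure_add _ (hC.closure_smul _ ?_ _ (hS _ a.2)) _ ih
        have h3 := h1 a
        have h4 : (n k a : ℝ) ≤ n l a := by exact_mod_cast h3
        linarith
    exact key _
  have hyl : toR (y l : Fin N → ℤ) = toR (y k : Fin N → ℤ) + w := by
    have e1 : ∀ j, toR (y j : Fin N → ℤ) = toR (r j) + ∑ s : S, (n j s : ℝ) • toR (s : Fin N → ℤ) := by
      intro j
      change _ = toR ((y j : Fin N → ℤ) - ∑ s : S, n j s • (s : Fin N → ℤ)) + _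
      rw [toR_sub', toR_sum']
      simp only [toR_nsmul']
      abel
    rw [e1 l, e1 k, h2, add_assoc]
    congr 1
    change _ = _ + ∑ s : S, ((n l s : ℝ) - n k s) • toR (s : Fin N → ℤ)
    rw [← Finset.sum_add_distrib]
    refine Finset.sum_congr rfl (fun s _ => ?_)
    rw [← add_smul]
    congr 1
    ring
  have hw0 : w ≠ 0 := by
    intro h0
    rw [h0, add_zero] at hyl
    have h3 := y.injective (Subtype.ext (toR_inj' hyl))
    omega
  have h3 := hmono _ (hy1 k) w hwcl hw0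
  rw [← hyl, hy3, hy3] at h3
  exact lt_irrefl _ h3

theorem q1_fin {N d : ℕ} {D : NefData N} {I : MultilinearMap ℝ (fun _ : Fin d => V N) ℝ} (hI : TopForm D I)
    (hpos : ∀ x ∈ D.amp, 0 < I (fun _ => x)) (hQ : D.Q1) : FinOrb D I ⊤ := by
  classical
  obtain ⟨P, ⟨S, rfl⟩, hcov, -⟩ := hQ
  have hS : ∀ s ∈ S, toR s ∈ closure D.amp := by
    intro s hs
    have h1 : toR s ∈ closure D.amp ∩ D.eff := by
      rw [hcov]
      exact Set.mem_biUnion D.G.one_mem ⟨toR s, gen_mem hs, act_one _⟩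
    exact h1.1
  intro B
  have hfin : {y : Fin N → ℤ | toR y ∈ D.amp ∧ gen S (toR y) ∧ I (fun _ => toR y) ≤ B}.Finite := by
    have h1 : {y : Fin N → ℤ | toR y ∈ D.amp ∧ gen S (toR y) ∧ I (fun _ => toR y) ≤ B} ⊆
        ⋃ z ∈ Set.Icc (0 : ℤ) ⌊B⌋, {y : Fin N → ℤ | toR y ∈ D.amp ∧ gen S (toR y) ∧
          I (fun _ => toR y) = (z : ℝ)} := by
      rintro y ⟨h1, h2, h3⟩
      obtain ⟨z, hz⟩ := hI.int (fun _ => y)
      refine Set.mem_biUnion (x := z) ?_ ⟨h1, h2, hz⟩
      rw [Set.mem_Icc]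
      constructor
      · have h4 := hpos _ h1
        rw [hz] at h4
        exact_mod_cast h4.le
      · rw [Int.le_floor, ← hz]
        exact h3
    refine Set.Finite.subset (Set.Finite.biUnion (Set.finite_Icc _ _) (fun z _ => ?_)) h1
    exact fin_level D.isAmp (fun x => I (fun _ => x)) hI.mono S hS z
  refine ⟨hfin.toFinset, ?_⟩
  intro s hs _ hsB
  have h1 : toR s ∈ closure D.amp ∩ D.eff := ⟨subset_closure hs, D.amp_eff hs⟩
  rw [hcov, Set.mem_iUnion₂] at h1
  obtain ⟨g, hg, x, hx, hgx⟩ := h1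
  have h2 : x = toR (actZ g⁻¹ s) := by
    rw [toR_actZ, ← hgx, ← act_mul, inv_mul_cancel, act_one]
  refine ⟨g, hg, actZ g⁻¹ s, ?_, ?_⟩
  · rw [Set.Finite.mem_toFinset]
    refine ⟨?_, ?_, ?_⟩
    · rw [toR_actZ]
      exact D.act_amp _ (D.G.inv_mem hg) _ hs
    · rw [← h2]
      exact hx
    · rw [toR_actZ]
      have h3 := hI.inv g⁻¹ (D.G.inv_mem hg) (fun _ => toR s)
      rw [h3]
      exact hsB
  · rw [← h2, hgx]

end Pool.Agent.H49.IRE
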